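import Mathlib

set_option autoImplicit false

namespace Pool.Agent.Results.MP_5ec752_co.Counter

inductive RegA : List ℕ → Prop
  | base : RegA [1, 1]
  | left (b r : List ℕ) : RegA (b ++ r) → b ≠ [] → RegA (b.sum :: (b ++ r))
  | right (l b : List ℕ) : RegA (l ++ b) → b ≠ [] → RegA (l ++ b ++ [b.sum])

inductive RegB : List ℕ → Prop
  | base : RegB [1, 1]
  | left (l b r : List ℕ) : RegB (l ++ b ++ r) → b ≠ [] → RegB (b.sum :: (l ++ b ++ r))
  | right (l b r : List ℕ) : RegB (l ++ b ++ r) → b ≠ [] → RegB (l ++ b ++ r ++ [b.sum])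

def lens (R : List ℕ → Prop) (ks : List ℕ) : Set ℕ :=
  {n | ∃ d, R d ∧ d.length = n ∧ ∃ p : List ℕ, p.Perm ks ∧ p.Sublist d}

def ch (d : List ℕ) : List (List ℕ) :=
  ((List.range d.length).map fun i => (d.take (i + 1)).sum :: d) ++
    ((List.range d.length).map fun i => d ++ [(d.drop i).sum])

def chk : ℕ → List ℕ → Bool
  | 0, d => !(d.any (Nat.beq 24) && d.any (Nat.beq 9))
  | k + 1, d => !(d.any (Nat.beq 24) && d.any (Nat.beq 9)) && (ch d).all (chk k)

theorem sound (d : List ℕ) (h : RegA d) (hl : d.length ≤ 7) : chk (7 - d.length) d = true := by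
  have step : ∀ p c, c ∈ ch p → c.length = p.length + 1 → c.length ≤ 7 →
      chk (7 - p.length) p = true → chk (7 - c.length) c = true := fun p c m e l k => by
    rw [show 7 - p.length = 7 - c.length + 1 by omega, chk, Bool.and_eq_true,
      List.all_eq_true] at k
    exact k.2 c m
  induction h with
  | base => decide +kernel
  | left b r _ hb ih =>
    have := List.length_pos_iff.2 hb
    refine step _ _ (List.mem_append_left _ (List.mem_map.2 ⟨b.length - 1, ?_, ?_⟩)) rfl hl
      (ih (by simp at hl ⊢; omega))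
    · simp
      omega
    · rw [Nat.sub_add_cancel this, List.take_left]
  | right l b _ hb ih =>
    have := List.length_pos_iff.2 hb
    refine step _ _ (List.mem_append_right _ (List.mem_map.2 ⟨l.length, by simpa, ?_⟩))
      (by simp [add_assoc]) hl (ih (by simp at hl ⊢; omega))
    rw [List.drop_left]

theorem result : 7 ∈ lens RegB [9, 24] ∧ IsLeast (lens RegA [9, 24]) 8 := by
  refine ⟨⟨[7, 1, 1, 2, 4, 9, 24], .right [] [7, 1, 1, 2, 4, 9] [] (.right [] [7, 1, 1] [2, 4]
    (.left [1] [1, 2, 4] [] (.right [] [1, 1, 2] [] (.right [] [1, 1] [] .base (by simp))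
    (by simp)) (by simp)) (by simp)) (by simp), rfl, _, .refl _, by decide⟩,
    ⟨[9, 1, 1, 1, 2, 4, 6, 24], .right [] [9, 1, 1, 1, 2, 4, 6] (.left [1, 1, 1, 2, 4] [6]
    (.right [1, 1, 1] [2, 4] (.right [1] [1, 1, 2] (.right [1] [1, 1] (.right [1] [1] .base
    (by simp)) (by simp)) (by simp)) (by simp)) (by simp)) (by simp), rfl, _, .refl _,
    by decide⟩, ?_⟩
  rintro n ⟨d, h, rfl, p, h1, h2⟩
  by_contra hn
  have k := sound d h (by omega)
  have a : d.any (Nat.beq 9) = true :=
    List.any_eq_true.2 ⟨9, h2.subset (h1.mem_iff.2 (by simp)), rfl⟩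
  have b : d.any (Nat.beq 24) = true :=
    List.any_eq_true.2 ⟨24, h2.subset (h1.mem_iff.2 (by simp)), rfl⟩
  generalize 7 - d.length = m at k
  cases m <;> simp [chk, a, b] at k

end Pool.Agent.Results.MP_5ec752_co.Counter
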